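import Pool.Agent.L0h61.T3.Cv

/-!
# The local statements of the converse for `y² = x³ + D³` at the primes dividing `D`
-/

set_option autoImplicit false
set_option linter.unusedSectionVars false

namespace Pool.Agent.L0h61.T3

open Pool.Agent.L0h4.TC Pool.Agent.L0h98.BSD Pool.Agent.L0h4.T3
open Pool.Agent.Y696 Pool.Agent.Y715.T.Lat Pool.Agent.W192.HK
open Pool.Agent.L0h86.F3

lemma sy_one {π x : eis} (h : sy π x = 1) : x ∉ sp π ∧ ∃ t k : eis, x = t * t + π * k := by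
  classical
  have h1 : x ∉ sp π := by
    intro h'
    unfold sy at h
    rw [if_pos h'] at h
    exact zero_ne_one h
  refine ⟨h1, ?_⟩
  have h3 : IsSquare (Ideal.Quotient.mk (sp π) x) := by
    by_contra h'
    unfold sy at h
    rw [if_neg h1, if_neg h'] at h
    norm_num at h
  obtain ⟨t', ht'⟩ := h3
  obtain ⟨t, rfl⟩ := Ideal.Quotient.mk_surjective t'
  rw [← map_mul, Ideal.Quotient.eq, Ideal.mem_span_singleton] at ht'
  obtain ⟨k, hk⟩ := ht'
  exact ⟨t, k, by linear_combination hk⟩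

/-! ### inert primes -/

lemma no_root {q : ℕ} [hq : Fact q.Prime] (h3 : q % 3 = 2) (w : ZMod q) : w ^ 2 + w + 1 ≠ 0 := by
  intro hw
  have h1 : w ^ 3 = 1 := by linear_combination (w - 1) * hw
  have h2 : w ≠ 1 := by
    rintro rfl
    have h4 : (3 : ZMod q) = 0 := by linear_combination hw
    exact three_ne (p := q) (by rintro rfl; norm_num at h3) h4
  have h5 : orderOf w = 3 := orderOf_eq_prime h1 h2
  have h6 : w ≠ 0 := by
    rintro rfl
    norm_num at h1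
  have h7 := ZMod.orderOf_dvd_card_sub_one h6
  rw [h5] at h7
  have := hq.out.two_le
  omega

lemma norm_inert {q : ℕ} [hq : Fact q.Prime] (h3 : q % 3 = 2) {X Y : ZMod q}
    (h : X ^ 2 - X * Y + Y ^ 2 = 0) : X = 0 ∧ Y = 0 := by
  by_cases hY : Y = 0
  · subst hY
    refine ⟨?_, rfl⟩
    have : X ^ 2 = 0 := by linear_combination h
    exact pow_eq_zero_iff (two_ne_zero) |>.1 this
  · exfalso
    apply no_root h3 (-(X / Y))
    field_simp
    linear_combination h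

lemma key_inert {q : ℕ} [hq : Fact q.Prime] (h2 : q % 2 = 1) (h3 : q % 3 = 2) {x : eis}
    (h : sy (-(q : eis)) x = 1) : SqZ ℚ_[q] 1 1 (cx x : ℚ_[q]) (cy x : ℚ_[q]) := by
  obtain ⟨h1, t, k, hk⟩ := sy_one h
  have hq2 : q ≠ 2 := by rintro rfl; norm_num at h2
  have e1 : -(q : eis) = ((-(q : ℤ) : ℤ) : eis) := by push_cast; rfl
  -- coordinates
  have c1 := c_mul t t
  have c2 := c_mul (((-(q : ℤ) : ℤ) : eis)) k
  rw [(c_int (-(q : ℤ))).1, (c_int (-(q : ℤ))).2] at c2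
  have c3 := c_sub x (t * t)
  have e2 : x - t * t = ((-(q : ℤ) : ℤ) : eis) * k := by rw [← e1]; linear_combination hk
  rw [e2, c1.1, c1.2, c2.1, c2.2] at c3
  have hX : cx x = cx t * cx t - cy t * cy t + (q : ℤ) * (-cx k) := by linear_combination -c3.1
  have hY : cy x = cx t * cy t + cy t * cx t - cy t * cy t + (q : ℤ) * (-cy k) := by
    linear_combination -c3.2
  have hXq : (cx x : ZMod q) = (cx t : ZMod q) * cx t - (cy t : ZMod q) * cy t := by
    rw [hX]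
    push_cast
    rw [ZMod.natCast_self]
    ring
  have hYq : (cy x : ZMod q) = (cx t : ZMod q) * cy t + (cy t : ZMod q) * cx t -
      (cy t : ZMod q) * cy t := by
    rw [hY]
    push_cast
    rw [ZMod.natCast_self]
    ring
  have hN : (cx x : ZMod q) ^ 2 - cx x * cy x + (cy x : ZMod q) ^ 2 ≠ 0 := by
    intro h0
    obtain ⟨a1, a2⟩ := norm_inert h3 h0
    apply h1
    rw [ZMod.intCast_zmod_eq_zero_iff_dvd] at a1 a2
    obtain ⟨u, hu⟩ := a1
    obtain ⟨v, hv⟩ := a2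
    rw [Ideal.mem_span_singleton]
    refine ⟨-ez u v, ?_⟩
    rw [neg_mul_neg]
    conv_lhs => rw [cxy x, hu, hv]
    have : (q : eis) = ez (q : ℤ) 0 := by rw [ez_int]; push_cast; rfl
    rw [this, ez_mul]
    congr 1 <;> ring
  have key := SqZ_lift (p := q) (a := 1) (b := 1) hq2 (u := (cx x : ℤ_[q])) (v := (cy x : ℤ_[q]))
    (by
      simp only [map_add, map_sub, map_mul, map_pow, map_intCast]
      intro h0
      apply hN
      push_cast at h0
      linear_combination h0)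
    ⟨cx t, cy t, by
      rw [map_intCast, hXq]
      push_cast
      ring, by
      rw [map_intCast, hYq]
      push_cast
      ring⟩
  push_cast at key
  exact key

lemma neg_one_inert {q : ℕ} [hq : Fact q.Prime] (h2 : q % 2 = 1) (h3 : q % 3 = 2) :
    SqZ ℚ_[q] 1 1 (-1 : ℚ_[q]) 0 := by
  have hq2 : q ≠ 2 := by rintro rfl; norm_num at h2
  have hF : ringChar (ZMod q) ≠ 2 := by rw [ZMod.ringChar_zmod_n]; exact hq2
  have hns : ¬ IsSquare (((1 : ℤ) : ZMod q) ^ 2 - 4 * ((1 : ℤ) : ZMod q)) := by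
    rintro ⟨s, hs⟩
    have t2 := two_ne (p := q) hq2
    obtain ⟨k, hk⟩ : ∃ k : ZMod q, 2 * k = 1 := ⟨2⁻¹, mul_inv_cancel₀ t2⟩
    push_cast at hs
    apply no_root h3 (k * (s - 1))
    linear_combination -k ^ 2 * hs - (k * s + k + 1) * hk
  have k := SqZ_inert (F := ZMod q) (a := 1) (b := 1) (u := -1) (v := 0) hF hns
    (by
      push_cast
      norm_num) ⟨1, by push_cast; ring⟩
  have key := SqZ_lift (p := q) (a := 1) (b := 1) hq2 (u := (-1 : ℤ_[q])) (v := (0 : ℤ_[q]))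
    (by
      simp only [map_add, map_sub, map_mul, map_pow, map_intCast, map_neg, map_one, map_zero]
      norm_num)
    (by
      rw [map_neg, map_one, map_zero]
      exact k)
  push_cast at key
  exact key

/-- **C-I** -/
theorem t_CI : S_CI := by
  intro q hq D z h2 h3 hD h
  have hDQ : (D : ℚ_[q]) ≠ 0 := by exact_mod_cast hD
  rcases h with h | ⟨z₁, D₁, hz, hDD, h⟩
  · exact Or.inl (sq_conv hDQ (key_inert h2 h3 h))
  · right
    left
    refine sq_conv0 hDQ ?_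
    have k1 := key_inert h2 h3 h
    have k2 := neg_one_inert h2 h3
    have k3 : SqZ ℚ_[q] 1 1 ((-1 : ℚ_[q])) (-1) := ⟨0, 1, by push_cast; ring, by push_cast; ring⟩
    have k4 : SqZ ℚ_[q] 1 1 ((q : ℚ_[q]) ^ 2) 0 := ⟨q, 0, by ring, by ring⟩
    have k5 := SqZ.mul1 (SqZ.mul1 (SqZ.mul1 k1 k2) k3) k4
    -- coordinates of `D z`
    have c1 := c_mul la (D₁ * z₁)
    rw [c_la.1, c_la.2] at c1
    have e1 : (D : eis) * z = ((q ^ 2 : ℤ) : eis) * (D₁ * z₁) := by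
      rw [hz, hDD]
      push_cast
      ring
    have c2 := c_mul (D : eis) z
    have c3 := c_mul (((q ^ 2 : ℤ) : eis)) (D₁ * z₁)
    rw [e1, (c_int D).1, (c_int D).2, c3.1, c3.2, (c_int (q ^ 2 : ℤ)).1, (c_int (q ^ 2 : ℤ)).2] at c2
    have d1 := congrArg (fun t : ℤ => (t : ℚ_[q])) c2.1
    have d2 := congrArg (fun t : ℤ => (t : ℚ_[q])) c2.2
    push_cast at d1 d2
    rw [c1.1, c1.2] at k5
    push_cast at k5
    convert k5 using 1
    · linear_combination d1 + d2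
    · linear_combination 2 * d2 - d1

/-! ### split primes -/

section split
variable {p : ℕ} [hp : Fact p.Prime]

/-- `w` is the root attached to `π` -/
structure Rt (π : eis) (w : ℤ_[p]) : Prop where
  nm : π * cj π = (p : eis)
  rt : w ^ 2 + w + 1 = 0
  ev0 : PadicInt.toZMod (ev w π) = 0

lemma cj_cj' (π : eis) : cj (cj π) = π := by
  apply Subtype.ext
  show (starRingEnd ℂ) ((starRingEnd ℂ) (π : ℂ)) = _
  exact Complex.conj_conj _

lemma Rt.symm {π : eis} {w : ℤ_[p]} (h : Rt π w) : Rt (cj π) (-1 - w) where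
  nm := by rw [cj_cj', mul_comm]; exact h.nm
  rt := conj_root h.rt
  ev0 := by rw [ev_cj h.rt]; exact h.ev0

lemma Rt.w0 {π : eis} {w : ℤ_[p]} (h : Rt π w) :
    (PadicInt.toZMod w) ^ 2 + PadicInt.toZMod w + 1 = 0 := by
  have := congrArg (PadicInt.toZMod (p := p)) h.rt
  simpa only [map_add, map_pow, map_one, map_zero] using this

lemma Rt.ds (h3 : p ≠ 3) {π : eis} {w : ℤ_[p]} (h : Rt π w) : (1 + 2 * PadicInt.toZMod w) ≠ 0 := by
  intro h0
  apply three_ne (p := p) h3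
  linear_combination 4 * h.w0 - (1 + 2 * PadicInt.toZMod w) * h0

lemma p_ne_eis : (p : eis) ≠ 0 := by
  intro h0
  have this : ((p : eis) : ℂ) = ((0 : eis) : ℂ) := congrArg (fun t : eis => (t : ℂ)) h0
  have e : ((p : eis) : ℂ) = (p : ℂ) := by push_cast; rfl
  have e0 : ((0 : eis) : ℂ) = 0 := rfl
  rw [e, e0] at this
  exact hp.out.ne_zero (by exact_mod_cast this)

lemma Rt.unit (h3 : p ≠ 3) {π : eis} {w : ℤ_[p]} (h : Rt π w) {x : eis} (hx : x ∉ sp π) :
    PadicInt.toZMod (ev w x) ≠ 0 := by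
  intro h0
  apply hx
  set y := x * cj π with hy
  have y1 : PadicInt.toZMod (ev w y) = 0 := by
    rw [hy, ev_mul h.rt, map_mul, h0, zero_mul]
  have y2 : PadicInt.toZMod (ev (-1 - w) y) = 0 := by
    rw [hy, ev_mul (conj_root h.rt), map_mul, ev_cj h.rt, h.ev0, mul_zero]
  rw [ev_map] at y1 y2
  unfold ev at y1 y2
  simp only [map_sub, map_neg, map_one] at y2
  have f1 : (cy y : ZMod p) = 0 := by
    apply mul_right_cancel₀ (h.ds h3)
    linear_combination y1 - y2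
  have f2 : (cx y : ZMod p) = 0 := by
    linear_combination y1 - PadicInt.toZMod w * f1
  rw [ZMod.intCast_zmod_eq_zero_iff_dvd] at f1 f2
  obtain ⟨u, hu⟩ := f2
  obtain ⟨v, hv⟩ := f1
  have e1 : y = (p : eis) * ez u v := by
    conv_lhs => rw [cxy y, hu, hv]
    have : (p : eis) = ez (p : ℤ) 0 := by rw [ez_int]; push_cast; rfl
    rw [this, ez_mul]
    congr 1 <;> ring
  have hc : cj π ≠ 0 := by
    intro h0
    have := h.nm
    rw [h0, mul_zero] at this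
    exact p_ne_eis this.symm
  rw [Ideal.mem_span_singleton]
  refine ⟨ez u v, ?_⟩
  apply mul_right_cancel₀ hc
  rw [← hy, e1, ← h.nm]
  ring

lemma Rt.sq (h2 : p ≠ 2) (h3 : p ≠ 3) {π : eis} {w : ℤ_[p]} (h : Rt π w) {x : eis}
    (hx : sy π x = 1) : ∃ m : ℤ_[p], m ≠ 0 ∧ m ^ 2 = ev w x := by
  obtain ⟨h1, t, k, hk⟩ := sy_one hx
  have hu := h.unit h3 h1
  have e1 : PadicInt.toZMod (ev w x) =
      PadicInt.toZMod (ev w t) * PadicInt.toZMod (ev w t) := by
    have e2 : x - t * t = π * k := by linear_combination hk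
    have e3 := congrArg (fun y => PadicInt.toZMod (ev w y)) e2
    simp only [ev_sub, ev_mul h.rt, map_sub, map_mul, h.ev0, zero_mul] at e3
    linear_combination e3
  obtain ⟨m, hm⟩ := lift_sq h2 hu ⟨_, e1⟩
  refine ⟨m, ?_, hm⟩
  rintro rfl
  apply hu
  rw [← hm]
  simp

lemma exists_rt (h2 : p ≠ 2) (h3 : p ≠ 3) {π : eis} (hπ : π * cj π = (p : eis)) :
    ∃ w : ℤ_[p], Rt π w := by
  have c1 := c_mul π (cj π)
  rw [hπ, (c_cj π).1, (c_cj π).2] at c1
  have e0 : (p : eis) = ((p : ℤ) : eis) := by push_cast; rfl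
  rw [e0, (c_int (p : ℤ)).1] at c1
  have hN : cx π ^ 2 - cx π * cy π + cy π ^ 2 = p := by linear_combination -c1.1
  have hY : (cy π : ZMod p) ≠ 0 := by
    intro h0
    have hX : (cx π : ZMod p) = 0 := by
      have h1 := congrArg (fun t : ℤ => (t : ZMod p)) hN
      push_cast at h1
      rw [ZMod.natCast_self, h0] at h1
      have h4 : (cx π : ZMod p) ^ 2 = 0 := by linear_combination h1
      exact pow_eq_zero_iff (two_ne_zero) |>.1 h4
    rw [ZMod.intCast_zmod_eq_zero_iff_dvd] at h0 hX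
    obtain ⟨u, hu⟩ := hX
    obtain ⟨v, hv⟩ := h0
    rw [hu, hv] at hN
    have h5 : (p : ℤ) * (p * (u ^ 2 - u * v + v ^ 2)) = p * 1 := by linear_combination hN
    have hp0 : (p : ℤ) ≠ 0 := by exact_mod_cast hp.out.ne_zero
    have h6 := mul_left_cancel₀ hp0 h5
    have h7 : (p : ℤ) ∣ 1 := ⟨_, h6.symm⟩
    have h8 := hp.out.two_le
    have h9 := Int.le_of_dvd one_pos h7
    omega
  obtain ⟨w, hw, hw0⟩ := root_lift (p := p) h2 h3 (w0 := -((cx π : ZMod p) / cy π)) (by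
    have h1 := congrArg (fun t : ℤ => (t : ZMod p)) hN
    push_cast at h1
    rw [ZMod.natCast_self] at h1
    field_simp
    linear_combination h1)
  refine ⟨w, hπ, hw, ?_⟩
  rw [ev_map, hw0]
  unfold ev
  field_simp
  ring

/-- the mixed case -/
lemma mixed (h2 : p ≠ 2) (h3 : p ≠ 3) {D : ℤ} (hD : D ≠ 0) {π z z₁ D₁ : eis} {w : ℤ_[p]}
    (h : Rt π w) (h1 : sy π (-z) = 1) (hz : z = cj π * z₁) (hDD : (D : eis) = cj π * D₁)
    (h4 : sy (cj π) (la * (D₁ * z₁)) = 1) : LZ ℚ_[p] D z := by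
  have hDQ : (D : ℚ_[p]) ≠ 0 := by exact_mod_cast hD
  have h' := h.symm
  obtain ⟨m, hm0, hm⟩ := h.sq h2 h3 h1
  obtain ⟨n, hn0, hn⟩ := h'.sq h2 h3 h4
  have c2' : ((2 : ℤ_[p]) : ℚ_[p]) = 2 := c2
  rw [ev_neg h.rt] at hm
  rw [ev_mul h'.rt, ev_mul h'.rt, ev_la] at hn
  have ez1 := congrArg (ev (-1 - w)) hz
  have eD := congrArg (ev (-1 - w)) hDD
  rw [ev_mul h'.rt] at ez1 eD
  rw [ev_int] at eD
  have hwQ : (w : ℚ_[p]) ^ 2 + w + 1 = 0 := by
    have := congrArg (fun z : ℤ_[p] => (z : ℚ_[p])) h.rt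
    push_cast at this
    exact this
  -- over `ℚ_p`
  have hz1ne : ev (-1 - w) z₁ ≠ 0 := by
    intro h0
    rw [h0, mul_zero, mul_zero] at hn
    exact hn0 (pow_eq_zero_iff (two_ne_zero) |>.1 hn)
  have hz1Q : ((ev (-1 - w) z₁ : ℤ_[p]) : ℚ_[p]) ≠ 0 := coe_ne hz1ne
  have hmQ : (m : ℚ_[p]) ≠ 0 := coe_ne hm0
  have hD1 : (1 - w) ≠ 0 := by
    intro h0
    have h5 : w = 1 := by linear_combination -h0
    have h6 := h.rt
    rw [h5] at h6
    norm_num at h6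
  have hds : (1 + 2 * w) ≠ 0 := by
    intro h0
    apply h.ds h3
    have := congrArg (PadicInt.toZMod (p := p)) h0
    simpa only [map_add, map_mul, map_one, map_ofNat, map_zero] using this
  have hDZ : (D : ℤ_[p]) ≠ 0 := by exact_mod_cast hD
  have mQ := congrArg (fun z : ℤ_[p] => (z : ℚ_[p])) hm
  have nQ := congrArg (fun z : ℤ_[p] => (z : ℚ_[p])) hn
  have zQ := congrArg (fun z : ℤ_[p] => (z : ℚ_[p])) ez1
  have dQ := congrArg (fun z : ℤ_[p] => (z : ℚ_[p])) eD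
  have evz : ((ev w z : ℤ_[p]) : ℚ_[p]) = (cx z : ℚ_[p]) + cy z * w := by
    unfold ev
    push_cast
    rfl
  have evz' : ((ev (-1 - w) z : ℤ_[p]) : ℚ_[p]) = (cx z : ℚ_[p]) + cy z * (-1 - w) := by
    unfold ev
    push_cast
    rfl
  push_cast [c2'] at mQ nQ zQ dQ
  rw [evz] at mQ
  rw [evz'] at zQ
  unfold LZ
  refine Or.inr (Or.inr (T1_gen h2 (E1 := (D : ℤ_[p]) * (1 - w)) (E2 := (D : ℤ_[p]) * (2 + w))
    (mul_ne_zero hDZ hD1) ?_ ?_ ?_ ⟨D * w * (1 + 2 * w) / m, ?_⟩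
    ⟨n / ((ev (-1 - w) z₁ : ℤ_[p]) : ℚ_[p]), ?_⟩))
  · intro h0
    apply mul_ne_zero hDZ hds
    linear_combination -h0
  · push_cast [c2']
    ring
  · push_cast [c2']
    linear_combination ((D : ℚ_[p]) ^ 2) * hwQ
  · have e1 : (cx z : ℚ_[p]) + cy z + -(cy z / D) * (((D : ℤ_[p]) * (1 - w) : ℤ_[p]) : ℚ_[p]) =
        -(m : ℚ_[p]) ^ 2 := by
      rw [mQ]
      push_cast
      field_simp
      ring
    rw [e1]
    push_cast [c2']
    field_simp
    have e4 : (w : ℚ_[p]) ^ 2 = -w - 1 := by linear_combination hwQ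
    have e5 : (w : ℚ_[p]) ^ 4 = w := by linear_combination (w ^ 2 - w : ℚ_[p]) * hwQ
    have e6 : (w : ℚ_[p]) ^ 3 = 1 := by linear_combination (w - 1 : ℚ_[p]) * hwQ
    linear_combination (4 * (w : ℚ_[p]) ^ 2 - 1) * hwQ
  · have e1 : (cx z : ℚ_[p]) + cy z + -(cy z / D) * (((D : ℤ_[p]) * (2 + w) : ℤ_[p]) : ℚ_[p]) =
        (cx z : ℚ_[p]) + cy z * (-1 - w) := by
      push_cast [c2']
      field_simp
      ring
    rw [e1, zQ]
    push_cast [c2']
    rw [div_pow, nQ, dQ]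
    field_simp
    ring

/-- the class of `(0, 0)` at the root `w` -/
lemma both (h2 : p ≠ 2) (h3 : p ≠ 3) {D : ℤ} {π z z₁ D₁ : eis} {w : ℤ_[p]}
    (h : Rt π w) (hz : z = π * z₁) (hDD : (D : eis) = π * D₁)
    (h4 : sy π (-(la * (D₁ * z₁))) = 1) :
    ∃ r : ℤ_[p], -((D : ℤ_[p]) * (1 - w)) * ev w z = r ^ 2 := by
  obtain ⟨m, hm0, hm⟩ := h.sq h2 h3 h4
  rw [ev_neg h.rt, ev_mul h.rt, ev_mul h.rt, ev_la] at hm
  have ez1 := congrArg (ev w) hz
  have eD := congrArg (ev w) hDD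
  rw [ev_mul h.rt] at ez1 eD
  rw [ev_int] at eD
  refine ⟨ev w π * w * m, ?_⟩
  rw [mul_pow, hm, ez1, eD]
  have e1 := h.rt
  have e2 : 1 - w = w ^ 2 * (1 + 2 * w) := by linear_combination (1 - 2 * w) * e1
  rw [e2]
  ring

lemma final_coords {D : ℤ} (hDQ : (D : ℚ_[p]) ≠ 0) (z : eis) (w : ℤ_[p]) :
    (cx z : ℚ_[p]) + cy z + -(cy z / D) * (((D : ℤ_[p]) * (1 - w) : ℤ_[p]) : ℚ_[p]) =
      ((ev w z : ℤ_[p]) : ℚ_[p]) := by
  unfold ev
  push_cast
  field_simp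
  ring

end split

/-- **C-S** -/
theorem t_CS : S_CS := by
  intro p hp D D' z π hp3 hDp hD' hπ s t hs0 hs1 ht0 ht1
  have h2 : p ≠ 2 := by rintro rfl; norm_num at hp3
  have h3 : p ≠ 3 := by rintro rfl; norm_num at hp3
  have hD : D ≠ 0 := by
    rintro rfl
    have hp0 : (p : ℤ) ≠ 0 := by exact_mod_cast hp.out.ne_zero
    have h5 : D' = 0 := by
      rcases mul_eq_zero.1 hDp.symm with h | h
      · exact absurd h hp0
      · exact h
    exact hD' (h5 ▸ dvd_zero _)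
  have hDQ : (D : ℚ_[p]) ≠ 0 := by exact_mod_cast hD
  obtain ⟨w, h⟩ := exists_rt h2 h3 hπ
  have h' := h.symm
  have hwQ : (w : ℚ_[p]) ^ 2 + w + 1 = 0 := by
    have := congrArg (fun z : ℤ_[p] => (z : ℚ_[p])) h.rt
    push_cast at this
    exact this
  have hds : (1 + 2 * w) ≠ 0 := by
    intro h0
    apply h.ds h3
    have := congrArg (PadicInt.toZMod (p := p)) h0
    simpa only [map_add, map_mul, map_one, map_ofNat, map_zero] using this
  have hDZ : (D : ℤ_[p]) ≠ 0 := by exact_mod_cast hD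
  have c2' : ((2 : ℤ_[p]) : ℚ_[p]) = 2 := c2
  have hEne : (((D : ℤ_[p]) * (1 - w) : ℤ_[p]) : ℚ_[p]) ≠
      (((D : ℤ_[p]) * (1 - (-1 - w)) : ℤ_[p]) : ℚ_[p]) := by
    intro h0
    have h5 : (D : ℤ_[p]) * (1 - w) = (D : ℤ_[p]) * (1 - (-1 - w)) := Subtype.ext h0
    apply mul_ne_zero hDZ hds
    linear_combination -h5
  have ha : (((-3 * D : ℤ)) : ℚ_[p]) = -((((D : ℤ_[p]) * (1 - w) : ℤ_[p]) : ℚ_[p]) +
      (((D : ℤ_[p]) * (1 - (-1 - w)) : ℤ_[p]) : ℚ_[p])) := by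
    push_cast
    ring
  have hb : (((3 * D ^ 2 : ℤ)) : ℚ_[p]) = (((D : ℤ_[p]) * (1 - w) : ℤ_[p]) : ℚ_[p]) *
      (((D : ℤ_[p]) * (1 - (-1 - w)) : ℤ_[p]) : ℚ_[p]) := by
    push_cast
    linear_combination ((D : ℚ_[p]) ^ 2) * hwQ
  have d0 : (0 : ZMod 2).val = 0 := rfl
  have d1 : (1 : ZMod 2).val = 1 := rfl
  have hcase : ∀ x : ZMod 2, x = 0 ∨ x = 1 := by decide
  rcases hcase s with rfl | rfl <;> rcases hcase t with rfl | rfl
  · -- squares
    have k1 := hs0 rfl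
    have k2 := ht0 rfl
    rw [d0, pow_zero, one_mul] at k1 k2
    obtain ⟨m, -, hm⟩ := h.sq h2 h3 k1
    obtain ⟨n, -, hn⟩ := h'.sq h2 h3 k2
    refine loc_sq hEne ha hb ?_ ?_
    · rw [final_coords hDQ, ← hm]
      exact ⟨(m : ℚ_[p]), by push_cast; ring⟩
    · rw [final_coords hDQ, ← hn]
      exact ⟨(n : ℚ_[p]), by push_cast; ring⟩
  · -- `s = 0`, `t = 1`
    have k1 := hs0 rfl
    obtain ⟨z₁, D₁, hz, hDD, k2⟩ := ht1 rfl
    rw [d1, pow_one, neg_one_mul] at k1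
    rw [d0, pow_zero, one_mul] at k2
    exact mixed h2 h3 hD h k1 hz hDD k2
  · have k1 := ht0 rfl
    obtain ⟨z₁, D₁, hz, hDD, k2⟩ := hs1 rfl
    rw [d1, pow_one, neg_one_mul] at k1
    rw [d0, pow_zero, one_mul] at k2
    refine mixed h2 h3 hD h' k1 (z₁ := z₁) (D₁ := D₁) ?_ ?_ ?_
    · rw [cj_cj']; exact hz
    · rw [cj_cj']; exact hDD
    · rw [cj_cj']; exact k2
  · obtain ⟨z₁, D₁, hz, hDD, k1⟩ := hs1 rfl
    obtain ⟨z₂, D₂, hz', hDD', k2⟩ := ht1 rfl
    rw [d1, pow_one, neg_one_mul] at k1 k2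
    obtain ⟨r, hr⟩ := both h2 h3 h hz hDD k1
    obtain ⟨r', hr'⟩ := both h2 h3 h' hz' hDD' k2
    refine loc_zero hEne ha hb ?_ ?_
    · rw [final_coords hDQ]
      have := congrArg (fun z : ℤ_[p] => (z : ℚ_[p])) hr
      rw [PadicInt.coe_mul, PadicInt.coe_neg, PadicInt.coe_pow] at this
      rw [this]
      exact ⟨(r : ℚ_[p]), by ring⟩
    · rw [final_coords hDQ]
      have := congrArg (fun z : ℤ_[p] => (z : ℚ_[p])) hr'
      rw [PadicInt.coe_mul, PadicInt.coe_neg, PadicInt.coe_pow] at this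
      rw [this]
      exact ⟨(r' : ℚ_[p]), by ring⟩

end Pool.Agent.L0h61.T3
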