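import Pool.Agent.L0h61.T3.Lap
import Pool.Agent.L0h86.F3.Def

/-!
# `S_LIN`: the determinant over the field with four elements and the system over the field with two
elements
-/

set_option autoImplicit false
set_option linter.unusedSectionVars false

namespace Pool.Agent.L0h61.T3

open Matrix
open Pool.Agent.L0h86.F3

lemma sum_subL {ι M : Type} [DecidableEq ι] [AddCommMonoid M] (S : Finset ι) (i : S) (f : ι → M) :
    ∑ k ∈ (Finset.univ : Finset S).erase i, f k = ∑ k ∈ S.erase (i : ι), f k := by
  refine Finset.sum_bij (fun k _ => (k : ι)) ?_ ?_ ?_ ?_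
  · intro k hk
    rw [Finset.mem_erase] at hk ⊢
    exact ⟨fun e => hk.1 (Subtype.ext e), k.2⟩
  · intro a _ b _ hab
    exact Subtype.ext hab
  · intro k hk
    rw [Finset.mem_erase] at hk
    refine ⟨⟨k, hk.2⟩, ?_, rfl⟩
    rw [Finset.mem_erase]
    exact ⟨fun e => hk.1 (congrArg Subtype.val e), Finset.mem_univ _⟩
  · intro k _
    rfl

lemma re_sum {ι : Type} (S : Finset ι) (b : ι → F4) : (∑ i ∈ S, b i).re = ∑ i ∈ S, (b i).re := by
  classical
  induction S using Finset.induction_on with
  | empty => rfl
  | insert a S ha ih =>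
    rw [Finset.sum_insert ha, Finset.sum_insert ha, ← ih]
    rfl

lemma im_sum {ι : Type} (S : Finset ι) (b : ι → F4) : (∑ i ∈ S, b i).im = ∑ i ∈ S, (b i).im := by
  classical
  induction S using Finset.induction_on with
  | empty => rfl
  | insert a S ha ih =>
    rw [Finset.sum_insert ha, Finset.sum_insert ha, ← ih]
    rfl

lemma w_eq : F4.w ^ 2 + F4.w + 1 = 0 := by decide

lemma cj_form (a : F4) : F4.cj a = F4.of a.re + F4.w ^ 2 * F4.of a.im := by
  revert a
  decide

lemma tr_mul (a b : F4) : F4.tr (a * b) = a.im * b.im + a.re * b.im + a.im * b.re := by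
  revert a b
  decide

lemma tr_w (a : F4) : F4.tr (F4.w * a) = a.re + a.im := by
  revert a
  decide

lemma of_ne {a : ZMod 2} : F4.of a ≠ 0 ↔ a ≠ 0 := by
  revert a
  decide

/-- **the determinant over the field with four elements and the system** -/
theorem t_LIN : S_LIN := by
  intro ι _ S c b m ε hc1 hc2 hcb hcm hrec hsum
  set cs : S → S := fun i => ⟨c i, hc1 i i.2⟩ with hcs
  have hs : Sys (κ := S) (fun i j => m i j) (fun i => (b i).im) (fun i => (b i).re) cs :=
    { rcp := fun i j hij => by
        rw [hrec i i.2 j j.2 fun e => hij (Subtype.ext e), tr_mul]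
      sumn := by
        rw [Finset.sum_coe_sort S (fun i => (b i).im), ← im_sum, hsum]
        rfl
      cinv := fun i => Subtype.ext (hc2 i i.2)
      cn := fun i => by
        show (b (c i)).im = _
        rw [hcb i i.2]
        rfl
      ct := fun i => by
        show (b (c i)).re = _
        rw [hcb i i.2]
        rfl
      cm := fun i j hij => hcm i i.2 j j.2 fun e => hij (Subtype.ext e) }
  have hd : ∑ i : S, (b i).re = ε := by
    rw [Finset.sum_coe_sort S (fun i => (b i).re), ← re_sum, hsum]
    rfl
  have h1 := det_Hm hs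
  rw [hd] at h1
  have h2 := det_Gm F4.of hs w_eq
  have eG : gk (fun i => F4.cj (b i)) (fun i j => F4.of (m i j)) S =
      (Gm (κ := S) (fun i j => m i j) (fun i => (b i).im) (fun i => (b i).re) F4.of F4.w).det := by
    unfold gk Gm
    congr 1
    refine Matrix.ext fun i j => ?_
    rw [Matrix.of_apply, Matrix.of_apply]
    by_cases hij : i = j
    · rw [if_pos hij, if_pos hij, sum_subL S i (fun k => F4.of (m i k))]
      exact congrArg (· + _) (cj_form (b i))
    · rw [if_neg hij, if_neg hij]
  rw [eG, h2, ← h1, of_ne]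
  have key : ∀ (x : ι → ZMod 2) (j : S),
      ((Hm (κ := S) (fun i j => m i j) (fun i => (b i).im) (fun i => (b i).re) cs ε) *ᵥ
        (fun i => x i)) j =
      ∑ i ∈ S.erase j, m i j * x i +
      (∑ i ∈ S.erase j, m i j + F4.tr (F4.w * b j) + ε * F4.tr (b j)) * x j +
      F4.tr (b j) * x (c j) := by
    intro x j
    unfold Matrix.mulVec dotProduct
    unfold Hm
    simp only [Matrix.of_apply, add_mul, Finset.sum_add_distrib, ite_mul, zero_mul]
    rw [Finset.sum_ite_eq Finset.univ (cs j) (fun i => (b j).im * x i),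
      if_pos (Finset.mem_univ _)]
    rw [← Finset.add_sum_erase Finset.univ _ (Finset.mem_univ j), if_pos rfl]
    have e1 : ∑ i ∈ (Finset.univ : Finset S).erase j,
        (if i = j then (∑ k ∈ Finset.univ.erase j, m k j) * x i + ε * (b j).im * x i +
          ((b j).re * x i + (b j).im * x i) else m i j * x i) =
        ∑ i ∈ (Finset.univ : Finset S).erase j, m i j * x i := by
      refine Finset.sum_congr rfl fun i hi => ?_
      rw [if_neg (Finset.mem_erase.1 hi).1]
    rw [e1, sum_subL S j (fun i => m i j * x i), sum_subL S j (fun i => m i j), tr_w]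
    show _ + (b j).im * x (c j) = _ + (b j).im * x (c j)
    show _ = _ + (_ + ((b j).re + (b j).im) * x j + ε * (b j).im * x j) + _
    ring
  constructor
  · intro hdet x hx j hj
    by_contra hne
    apply hdet
    rw [← Matrix.exists_mulVec_eq_zero_iff]
    refine ⟨fun i => x i, fun e => hne (congrFun e ⟨j, hj⟩), ?_⟩
    funext i
    rw [key x i]
    exact hx i i.2
  · intro hns hdet
    obtain ⟨v, hv, h0⟩ := Matrix.exists_mulVec_eq_zero_iff.2 hdet
    apply hv
    set x : ι → ZMod 2 := fun i => if hi : i ∈ S then v ⟨i, hi⟩ else 0 with hx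
    have hxv : (fun i : S => x i) = v := by
      funext i
      rw [hx]
      beta_reduce
      rw [dif_pos i.2]
    have h1 := hns x fun j hj => by
      have h2 := key x ⟨j, hj⟩
      rw [hxv, h0] at h2
      exact h2.symm
    funext i
    rw [← hxv]
    exact h1 i i.2

end Pool.Agent.L0h61.T3
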