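import Pool.Agent.L0h61.T3.Gen
import Pool.Agent.L0h4.T3.CvS

/-!
# The local statements of the converse for `y² = x³ + D³`
-/

set_option autoImplicit false
set_option linter.unusedSectionVars false

namespace Pool.Agent.L0h61.T3

open Pool.Agent.L0h4.TC Pool.Agent.L0h98.BSD Pool.Agent.L0h4.T3
open Pool.Agent.Y696 Pool.Agent.Y715.T.Lat Pool.Agent.W192.HK
open Pool.Agent.L0h86.F3

/-! ### coordinates -/

lemma c_mul (x y : eis) : cx (x * y) = cx x * cx y - cy x * cy y ∧
    cy (x * y) = cx x * cy y + cy x * cx y - cy x * cy y := by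
  have h : x * y = ez (cx x * cx y - cy x * cy y) (cx x * cy y + cy x * cx y - cy x * cy y) := by
    conv_lhs => rw [cxy x, cxy y]
    rw [ez_mul]
  rw [h]
  exact ⟨cx_ez _ _, cy_ez _ _⟩

lemma c_sub (x y : eis) : cx (x - y) = cx x - cx y ∧ cy (x - y) = cy x - cy y := by
  have h : x - y = ez (cx x - cx y) (cy x - cy y) := by
    conv_lhs => rw [cxy x, cxy y]
    rw [ez_sub]
  rw [h]
  exact ⟨cx_ez _ _, cy_ez _ _⟩

lemma c_int (n : ℤ) : cx (n : eis) = n ∧ cy (n : eis) = 0 := by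
  rw [← ez_int]
  exact ⟨cx_ez _ _, cy_ez _ _⟩

lemma c_la : cx la = 1 ∧ cy la = 2 := ⟨cx_ez _ _, cy_ez _ _⟩

lemma c_cj (x : eis) : cx (cj x) = cx x - cy x ∧ cy (cj x) = -cy x := by
  have h : cj x = ez (cx x - cy x) (-cy x) := by
    apply Subtype.ext
    show (starRingEnd ℂ) (x : ℂ) = _
    conv_lhs => rw [cxy x]
    rw [ez_coe, ez_coe, map_add, map_mul, map_intCast, map_intCast, conj_om]
    push_cast
    linear_combination ((cy x : ℤ) : ℂ) * om_sq
  rw [h]
  exact ⟨cx_ez _ _, cy_ez _ _⟩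

/-- evaluation at a root of `w² + w + 1` -/
noncomputable def ev {R : Type} [CommRing R] (w : R) (x : eis) : R := (cx x : R) + (cy x : R) * w

section ev
variable {R : Type} [CommRing R] {w : R}

lemma ev_mul (hw : w ^ 2 + w + 1 = 0) (x y : eis) : ev w (x * y) = ev w x * ev w y := by
  unfold ev
  rw [(c_mul x y).1, (c_mul x y).2]
  push_cast
  linear_combination (-(cy x : R) * cy y) * hw

lemma ev_sub (x y : eis) : ev w (x - y) = ev w x - ev w y := by
  unfold ev
  rw [(c_sub x y).1, (c_sub x y).2]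
  push_cast
  ring

lemma ev_int (n : ℤ) : ev w (n : eis) = n := by
  unfold ev
  rw [(c_int n).1, (c_int n).2]
  push_cast
  ring

lemma ev_one : ev w (1 : eis) = 1 := by
  have := ev_int (w := w) 1
  push_cast at this
  exact this

lemma ev_la : ev w la = 1 + 2 * w := by
  unfold ev
  rw [c_la.1, c_la.2]
  push_cast
  ring

lemma ev_neg (hw : w ^ 2 + w + 1 = 0) (x : eis) : ev w (-x) = -ev w x := by
  have h : -x = ((-1 : ℤ) : eis) * x := by push_cast; ring
  rw [h, ev_mul hw, ev_int]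
  push_cast
  ring

lemma ev_cj (hw : w ^ 2 + w + 1 = 0) (x : eis) : ev (-1 - w) (cj x) = ev w x := by
  unfold ev
  rw [(c_cj x).1, (c_cj x).2]
  push_cast
  ring

lemma conj_root (hw : w ^ 2 + w + 1 = 0) : (-1 - w) ^ 2 + (-1 - w) + 1 = 0 := by
  linear_combination hw

lemma ev_map {S : Type} [CommRing S] (f : R →+* S) (x : eis) : f (ev w x) = ev (f w) x := by
  unfold ev
  rw [map_add, map_mul, map_intCast, map_intCast]

end ev

lemma three_ne {p : ℕ} [hp : Fact p.Prime] (h3 : p ≠ 3) : (3 : ZMod p) ≠ 0 := by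
  intro h
  have h4 : ((3 : ℕ) : ZMod p) = 0 := by exact_mod_cast h
  rw [ZMod.natCast_eq_zero_iff] at h4
  exact h3 ((Nat.prime_dvd_prime_iff_eq hp.out (by norm_num)).1 h4)

/-- a root modulo `p` lifts -/
lemma root_lift {p : ℕ} [hp : Fact p.Prime] (h2 : p ≠ 2) (h3 : p ≠ 3) {w0 : ZMod p}
    (hw : w0 ^ 2 + w0 + 1 = 0) :
    ∃ w : ℤ_[p], w ^ 2 + w + 1 = 0 ∧ PadicInt.toZMod w = w0 := by
  have t2 := two_ne (p := p) h2
  have t3 := three_ne (p := p) h3
  -- `s = 1 + 2 w0`, `s² = -3`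
  have hs : (1 + 2 * w0) ^ 2 = -3 := by linear_combination 4 * hw
  obtain ⟨s, hs'⟩ := lift_sq (p := p) h2 (z := -3)
    (by rw [map_neg, map_ofNat]; exact neg_ne_zero.2 t3)
    (by rw [map_neg, map_ofNat, ← hs]; exact ⟨1 + 2 * w0, by ring⟩)
  have hsm : (PadicInt.toZMod s) ^ 2 = (1 + 2 * w0) ^ 2 := by
    rw [← map_pow, hs', map_neg, map_ofNat, hs]
  obtain ⟨k, hk⟩ := inv_of (p := p) (z := 2) (by rw [map_ofNat]; exact t2)
  have hk0 : (2 : ZMod p) * PadicInt.toZMod k = 1 := by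
    have := congrArg (PadicInt.toZMod (p := p)) hk
    rw [map_mul, map_ofNat, map_one] at this
    exact this
  have key : ∀ s : ℤ_[p], s ^ 2 = -3 → PadicInt.toZMod s = 1 + 2 * w0 →
      ∃ w : ℤ_[p], w ^ 2 + w + 1 = 0 ∧ PadicInt.toZMod w = w0 := by
    intro s h1 h2'
    refine ⟨k * (s - 1), ?_, ?_⟩
    · linear_combination k ^ 2 * h1 - (k * s + k + 1) * hk
    · rw [map_mul, map_sub, map_one, h2']
      linear_combination w0 * hk0
  have hfac : (PadicInt.toZMod s - (1 + 2 * w0)) * (PadicInt.toZMod s + (1 + 2 * w0)) = 0 := by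
    linear_combination hsm
  rcases mul_eq_zero.1 hfac with h | h
  · exact key s hs' (sub_eq_zero.1 h)
  · exact key (-s) (by rw [neg_sq, hs']) (by rw [map_neg]; linear_combination -h)

/-! ### the good primes -/

lemma not_dvd_norm {p : ℕ} [hp : Fact p.Prime] {z : eis}
    (h : ¬ (p : ℤ) ∣ cx z ^ 2 - cx z * cy z + cy z ^ 2) :
    ((cx z : ZMod p)) ^ 2 - cx z * cy z + (cy z : ZMod p) ^ 2 ≠ 0 := by
  intro h0
  apply h
  rw [← ZMod.intCast_zmod_eq_zero_iff_dvd]
  push_cast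
  exact h0

/-- **C-G** -/
theorem t_CG : S_CG := by
  intro p hp D z h2 h3 hD hN
  have hD' : (D : ZMod p) ≠ 0 := by
    rw [Ne, ZMod.intCast_zmod_eq_zero_iff_dvd]; exact hD
  have hN' := not_dvd_norm hN
  have hDne : D ≠ 0 := by rintro rfl; exact hD' (by simp)
  have hDQ : (D : ℚ_[p]) ≠ 0 := by exact_mod_cast hDne
  have t2 := two_ne (p := p) h2
  have t3 := three_ne (p := p) h3
  obtain ⟨W, hW⟩ := inv_of (p := p) (z := (D : ℤ_[p])) (by rw [map_intCast]; exact hD')
  have hWz : (D : ZMod p) * PadicInt.toZMod W = 1 := by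
    rw [← map_intCast (PadicInt.toZMod (p := p)) D, ← map_mul, hW, map_one]
  have hWQ : (W : ℚ_[p]) = 1 / D := by
    have := congrArg (fun z : ℤ_[p] => (z : ℚ_[p])) hW
    push_cast at this
    rw [eq_div_iff hDQ]
    linear_combination this
  have hF : ringChar (ZMod p) ≠ 2 := by rw [ZMod.ringChar_zmod_n]; exact h2
  have euv : (((cx z : ℤ_[p]) + (cy z : ℤ_[p]) : ℤ_[p]) : ℚ_[p]) = (cx z : ℚ_[p]) + (cy z : ℚ_[p]) ∧
      ((-((cy z : ℤ_[p]) * W) : ℤ_[p]) : ℚ_[p]) = -((cy z : ℚ_[p]) / D) := by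
    constructor
    · push_cast
      rfl
    · push_cast
      rw [hWQ]
      ring
  unfold LZ
  rw [← euv.1, ← euv.2]
  by_cases hs : IsSquare (-3 : ZMod p)
  · -- split
    obtain ⟨s, hs'⟩ := hs
    obtain ⟨k, hk⟩ : ∃ k : ZMod p, 2 * k = 1 := ⟨2⁻¹, mul_inv_cancel₀ t2⟩
    obtain ⟨w, hw, hw0⟩ := root_lift (p := p) h2 h3 (w0 := k * (s - 1)) (by
      linear_combination -k ^ 2 * hs' - (k * s + k + 1) * hk)
    have hw1 : (PadicInt.toZMod w) ^ 2 + PadicInt.toZMod w + 1 = 0 := by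
      have := congrArg (PadicInt.toZMod (p := p)) hw
      simpa only [map_add, map_pow, map_one, map_zero] using this
    -- `1 - w` and `2 + w` are units
    have n1 : (1 - PadicInt.toZMod w) ≠ 0 := by
      intro h
      apply t3
      linear_combination hw1 + (PadicInt.toZMod w + 2) * h
    have n2 : (2 + PadicInt.toZMod w) ≠ 0 := by
      intro h
      apply t3
      linear_combination hw1 - (PadicInt.toZMod w - 1) * h
    have n3 : (1 + 2 * PadicInt.toZMod w) ≠ 0 := by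
      intro h
      apply t3
      linear_combination 4 * hw1 - (1 + 2 * PadicInt.toZMod w) * h
    have hwQ : (w : ℚ_[p]) ^ 2 + w + 1 = 0 := by
      have := congrArg (fun z : ℤ_[p] => (z : ℚ_[p])) hw
      push_cast at this
      exact this
    have c2' : ((2 : ℤ_[p]) : ℚ_[p]) = 2 := c2
    refine split_gen h2 (E1 := (D : ℤ_[p]) * (1 - w)) (E2 := (D : ℤ_[p]) * (2 + w)) ?_ ?_ ?_ ?_ ?_
      ?_ ?_
    · push_cast [c2']
      ring
    · push_cast [c2']
      linear_combination ((D : ℚ_[p]) ^ 2) * hwQ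
    · simp only [map_mul, map_sub, map_one, map_intCast]
      exact mul_ne_zero hD' n1
    · simp only [map_mul, map_add, map_ofNat, map_intCast]
      exact mul_ne_zero hD' n2
    · have e : PadicInt.toZMod ((D : ℤ_[p]) * (1 - w) - (D : ℤ_[p]) * (2 + w)) =
          -((D : ZMod p) * (1 + 2 * PadicInt.toZMod w)) := by
        simp only [map_mul, map_sub, map_add, map_one, map_ofNat, map_intCast]
        ring
      rw [e]
      exact neg_ne_zero.2 (mul_ne_zero hD' n3)
    · intro h0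
      simp only [map_mul, map_sub, map_add, map_neg, map_one, map_intCast] at h0
      have h1 : (cx z : ZMod p) + cy z * PadicInt.toZMod w = 0 := by
        linear_combination h0 + ((cy z : ZMod p) * (1 - PadicInt.toZMod w)) * hWz
      apply hN'
      linear_combination ((cx z : ZMod p) - cy z - cy z * PadicInt.toZMod w) * h1 +
        ((cy z : ZMod p) ^ 2) * hw1
    · intro h0
      simp only [map_mul, map_sub, map_add, map_neg, map_one, map_ofNat, map_intCast] at h0
      have h1 : (cx z : ZMod p) - cy z - cy z * PadicInt.toZMod w = 0 := by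
        linear_combination h0 + ((cy z : ZMod p) * (2 + PadicInt.toZMod w)) * hWz
      apply hN'
      linear_combination ((cx z : ZMod p) + cy z * PadicInt.toZMod w) * h1 +
        ((cy z : ZMod p) ^ 2) * hw1
  · -- inert
    have hb : ((3 * D ^ 2 : ℤ) : ZMod p) ≠ 0 := by
      push_cast
      exact mul_ne_zero t3 (pow_ne_zero 2 hD')
    have hval : PadicInt.toZMod (((cx z : ℤ_[p]) + (cy z : ℤ_[p])) ^ 2 -
        ((-3 * D : ℤ) : ℤ_[p]) * ((cx z : ℤ_[p]) + (cy z : ℤ_[p])) * (-((cy z : ℤ_[p]) * W)) +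
        ((3 * D ^ 2 : ℤ) : ℤ_[p]) * (-((cy z : ℤ_[p]) * W)) ^ 2) ≠ 0 := by
      have e : ((cx z : ℤ_[p]) + (cy z : ℤ_[p])) ^ 2 -
        ((-3 * D : ℤ) : ℤ_[p]) * ((cx z : ℤ_[p]) + (cy z : ℤ_[p])) * (-((cy z : ℤ_[p]) * W)) +
        ((3 * D ^ 2 : ℤ) : ℤ_[p]) * (-((cy z : ℤ_[p]) * W)) ^ 2 =
        ((cx z ^ 2 - cx z * cy z + cy z ^ 2 : ℤ) : ℤ_[p]) := by
        push_cast
        linear_combination (-3 * ((cx z : ℤ_[p]) + cy z) * cy z + 3 * cy z ^ 2 * (D * W + 1)) * hW
      rw [e, map_intCast]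
      push_cast
      exact hN'
    refine LocZ_lift (p := p) h2 hb hval (LocZ_inert hF ?_ hb ?_)
    · rintro ⟨r, hr⟩
      apply hs
      push_cast at hr
      refine ⟨r * PadicInt.toZMod W, ?_⟩
      linear_combination (3 * ((D : ZMod p) * PadicInt.toZMod W + 1)) * hWz +
        (PadicInt.toZMod W) ^ 2 * hr
    · have e := hval
      simpa only [map_add, map_sub, map_mul, map_pow, map_neg, map_intCast] using e

/-! ### the prime three -/

/-- **C-3** -/
theorem t_C3 : S_C3 := by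
  intro hp D z hD hz
  have hDQ : (D : ℚ_[3]) ≠ 0 := by exact_mod_cast hD
  obtain ⟨k, hk⟩ := hz
  have h1 := c_sub z 1
  have h1' : cx (1 : eis) = 1 ∧ cy (1 : eis) = 0 := by
    have := c_int 1
    push_cast at this
    exact this
  have h2 := c_mul la k
  rw [← hk, h1.1, h1.2, h1'.1, h1'.2, c_la.1, c_la.2] at h2
  have h3 : cx z + cy z = 1 + 3 * (cx k - cy k) := by linear_combination h2.1 + h2.2
  have key := near_one' (p := 3) (a := -3) (b := 3) (by norm_num)
    ((ZMod.intCast_zmod_eq_zero_iff_dvd (-3) 3).2 ⟨-1, by norm_num⟩)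
    ((ZMod.intCast_zmod_eq_zero_iff_dvd 3 3).2 ⟨1, by norm_num⟩)
    (u := ((cx z + cy z : ℤ) : ℤ_[3])) (v := ((-cy z : ℤ) : ℤ_[3])) (by
      rw [map_intCast, h3]
      push_cast
      have : (3 : ZMod 3) = 0 := by
        have := (ZMod.intCast_zmod_eq_zero_iff_dvd 3 3).2 ⟨1, by norm_num⟩
        push_cast at this
        exact this
      rw [this]
      ring)
  obtain ⟨g, h, e1, e2⟩ := key
  left
  refine ⟨g, h / D, ?_, ?_⟩
  · push_cast at e1 ⊢
    rw [e1]
    field_simp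
  · push_cast at e2 ⊢
    have e3 : -((cy z : ℚ_[3]) / D) = (-(cy z : ℚ_[3])) / D := by ring
    rw [e3, e2]
    field_simp

end Pool.Agent.L0h61.T3
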