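import Pool.Agent.L0h98.BSD.GoodPrime

/-!
# Classes of local points of `Y² = X (X - E₁) (X - E₂)` over `ℚ_p`: general lemmas
-/

set_option autoImplicit false
set_option linter.unusedSectionVars false

namespace Pool.Agent.L0h61.T3

open Pool.Agent.L0h4.TC Pool.Agent.L0h98.BSD

section field
variable {L : Type} [Field L] {a b : ℤ}

/-- a point with given classes -/
lemma ptz_gen {E1 E2 u v X Y w1 w2 : L} (hE : E1 ≠ E2) (ha : (a : L) = -(E1 + E2))
    (hb : (b : L) = E1 * E2) (hY : Y ≠ 0) (h0 : Y ^ 2 = X * ((X - E1) * (X - E2)))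
    (h1 : X - E1 = (u + v * E1) * w1 ^ 2) (h2 : X - E2 = (u + v * E2) * w2 ^ 2) :
    PtZ L a b u v := by
  have hd : E1 - E2 ≠ 0 := sub_ne_zero.2 hE
  obtain ⟨H, hH⟩ : ∃ H : L, H = (w1 - w2) / (E1 - E2) := ⟨_, rfl⟩
  obtain ⟨G, hG⟩ : ∃ G : L, G = w1 - H * E1 := ⟨_, rfl⟩
  have g1 : G + H * E1 = w1 := by rw [hG]; ring
  have g2 : G + H * E2 = w2 := by
    have : H * (E1 - E2) = w1 - w2 := by rw [hH, div_mul_cancel₀ _ hd]
    rw [hG]
    linear_combination -this
  have r1 : E1 ^ 2 + (a : L) * E1 + (b : L) = 0 := by rw [ha, hb]; ring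
  have r2 : E2 ^ 2 + (a : L) * E2 + (b : L) = 0 := by rw [ha, hb]; ring
  have k1 := mod_eval r1 u v G H
  have k2 := mod_eval r2 u v G H
  rw [g1, ← h1] at k1
  rw [g2, ← h2] at k2
  have hR : (u * (2 * G * H - a * H ^ 2) + v * (G ^ 2 - b * H ^ 2) -
      a * v * (2 * G * H - a * H ^ 2)) = -1 := by
    apply mul_right_cancel₀ hd
    linear_combination k1 - k2
  refine ⟨X, Y, G, H, hY, ?_, ?_, ?_⟩
  · rw [h0, ha, hb]
    ring
  · linear_combination -k1 + E1 * hR
  · exact hR.symm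

/-- squares of the class -/
lemma loc_sq {E1 E2 u v : L} (hE : E1 ≠ E2) (ha : (a : L) = -(E1 + E2)) (hb : (b : L) = E1 * E2)
    (h1 : IsSquare (u + v * E1)) (h2 : IsSquare (u + v * E2)) : LocZ L a b u v :=
  Or.inl (SqZ_split hE ha hb h1 h2)

/-- the class of `(0, 0)` -/
lemma loc_zero {E1 E2 u v : L} (hE : E1 ≠ E2) (ha : (a : L) = -(E1 + E2))
    (hb : (b : L) = E1 * E2) (h1 : IsSquare (-E1 * (u + v * E1)))
    (h2 : IsSquare (-E2 * (u + v * E2))) : LocZ L a b u v := by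
  refine Or.inr (Or.inl (SqZ_split hE ha hb ?_ ?_))
  · convert h1 using 1
    rw [ha, hb]
    ring
  · convert h2 using 1
    rw [ha, hb]
    ring

lemma SqZ.mul1 {c d : ℤ} {X Y X' Y' : L} (h : SqZ L c d X Y) (h' : SqZ L c d X' Y') :
    SqZ L c d (X * X' - d * (Y * Y')) (X * Y' + Y * X' - c * (Y * Y')) := by
  obtain ⟨g, k, rfl, rfl⟩ := h
  obtain ⟨g', k', rfl, rfl⟩ := h'
  exact ⟨g * g' - d * (k * k'), g * k' + k * g' - c * (k * k'), by ring, by ring⟩

/-- from `ω` to `T = D (1 - ω)` -/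
lemma sq_conv {D : ℤ} {X Y : L} (hD : (D : L) ≠ 0) (h : SqZ L 1 1 X Y) :
    SqZ L (-3 * D) (3 * D ^ 2) (X + Y) (-(Y / D)) := by
  obtain ⟨g, k, rfl, rfl⟩ := h
  refine ⟨g + k, -(k / D), ?_, ?_⟩
  · push_cast
    field_simp
    ring
  · push_cast
    field_simp
    ring

/-- the class of `(0, 0)` in terms of `ω` -/
lemma sq_conv0 {D : ℤ} {X Y : L} (hD : (D : L) ≠ 0)
    (h : SqZ L 1 1 (-D * (X + Y)) (-D * (2 * Y - X))) :
    SqZ L (-3 * D) (3 * D ^ 2) (((3 * D ^ 2 : ℤ) : L) * (-(Y / D)))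
      (((-3 * D : ℤ) : L) * (-(Y / D)) - (X + Y)) := by
  have h1 := sq_conv hD h
  convert h1 using 1
  · push_cast
    field_simp
    ring
  · push_cast
    field_simp
    ring

end field

section padic
variable {p : ℕ} [hp : Fact p.Prime] {a b : ℤ}

/-- near one, for `T² + a T + b` with `p ∣ a, b` -/
lemma near_one' (h2 : p ≠ 2) (ha : (a : ZMod p) = 0) (hb : (b : ZMod p) = 0) {u v : ℤ_[p]}
    (hu : PadicInt.toZMod u = 1) : SqZ ℚ_[p] a b (u : ℚ_[p]) (v : ℚ_[p]) := by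
  have t2 := two_ne (p := p) h2
  obtain ⟨n, hn⟩ : ∃ n : ℤ_[p], n ^ 2 = u ^ 2 - a * u * v + b * v ^ 2 := by
    apply lift_sq h2
    · rw [map_add, map_sub, map_mul, map_mul, map_mul, map_pow, map_pow, hu, map_intCast,
        map_intCast, ha, hb]
      simp
    · rw [map_add, map_sub, map_mul, map_mul, map_mul, map_pow, map_pow, hu, map_intCast,
        map_intCast, ha, hb]
      simp
  obtain ⟨n, hn, hn1⟩ : ∃ n : ℤ_[p], n ^ 2 = u ^ 2 - a * u * v + b * v ^ 2 ∧
      PadicInt.toZMod n = 1 := by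
    have h1 : (PadicInt.toZMod n) ^ 2 = 1 := by
      rw [← map_pow, hn, map_add, map_sub, map_mul, map_mul, map_mul, map_pow, map_pow, hu,
        map_intCast, map_intCast, ha, hb]
      simp
    have h1' : (PadicInt.toZMod n - 1) * (PadicInt.toZMod n + 1) = 0 := by
      linear_combination h1
    rcases mul_eq_zero.1 h1' with h | h
    · exact ⟨n, hn, sub_eq_zero.1 h⟩
    · exact ⟨-n, by rw [neg_sq, hn], by rw [map_neg, eq_neg_of_add_eq_zero_left h, neg_neg]⟩
  have e4 : PadicInt.toZMod (2 * u - a * v + 2 * n : ℤ_[p]) = 2 * 2 := by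
    rw [map_add, map_sub, map_mul, map_mul, map_mul, hu, hn1, map_ofNat, map_intCast, ha]
    ring
  obtain ⟨t, ht⟩ := lift_sq h2 (z := (2 * u - a * v + 2 * n : ℤ_[p]))
    (by rw [e4]; exact mul_ne_zero t2 t2) (by rw [e4]; exact ⟨2, rfl⟩)
  have ht0 : t ≠ 0 := by
    rintro rfl
    have : PadicInt.toZMod (2 * u - a * v + 2 * n : ℤ_[p]) = 0 := by rw [← ht]; simp
    rw [e4] at this
    exact mul_ne_zero t2 t2 this
  refine SqZ_of_trace (n := (n : ℚ_[p])) (t := (t : ℚ_[p])) two_ne_zero ?_ ?_ ?_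
  · have := congrArg (fun z : ℤ_[p] => (z : ℚ_[p])) hn
    push_cast at this
    exact this
  · have := congrArg (fun z : ℤ_[p] => (z : ℚ_[p])) ht
    push_cast [c2] at this
    exact this
  · exact coe_ne ht0

/-- the class of the point `(E₁, 0)` of order two -/
lemma T1_gen (h2 : p ≠ 2) {E1 E2 : ℤ_[p]} {u v : ℚ_[p]} (h10 : E1 ≠ 0) (hE : E1 ≠ E2)
    (ha : (a : ℚ_[p]) = -(E1 + E2)) (hb : (b : ℚ_[p]) = E1 * E2)
    (k1 : ∃ r : ℚ_[p], (E1 : ℚ_[p]) * (E1 - E2) = (u + v * E1) * r ^ 2)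
    (k2 : ∃ r : ℚ_[p], (E1 : ℚ_[p]) - E2 = (u + v * E2) * r ^ 2) :
    PtZ ℚ_[p] a b u v := by
  have hpp : PadicInt.toZMod (p : ℤ_[p]) = 0 := by rw [map_natCast, ZMod.natCast_self]
  obtain ⟨r1, hr1⟩ := k1
  obtain ⟨r2, hr2⟩ := k2
  have q1 : PadicInt.toZMod (1 + E1 * (p : ℤ_[p]) ^ 2) = 1 := by
    simp only [map_mul, map_add, map_one, map_pow, hpp]
    ring
  have q2 : PadicInt.toZMod (1 + (E1 - E2) * (p : ℤ_[p]) ^ 2) = 1 := by
    simp only [map_mul, map_add, map_one, map_pow, hpp]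
    ring
  obtain ⟨s1, hs1, hs1'⟩ := unit_sq h2 (z := 1 + E1 * (p : ℤ_[p]) ^ 2)
    (by rw [q1]; exact one_ne_zero) (by rw [q1, map_one])
  obtain ⟨s2, hs2, hs2'⟩ := unit_sq h2 (z := 1 + (E1 - E2) * (p : ℤ_[p]) ^ 2)
    (by rw [q2]; exact one_ne_zero) (by rw [q2, map_one])
  push_cast at hs1' hs2'
  have hE1ne : (E1 : ℚ_[p]) ≠ 0 := coe_ne h10
  have hEne : (E1 : ℚ_[p]) - E2 ≠ 0 := by
    have := coe_ne (sub_ne_zero.2 hE)
    push_cast at this
    exact this
  have hpne : (p : ℚ_[p]) ≠ 0 := by exact_mod_cast hp.out.ne_zero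
  refine ptz_gen (a := a) (b := b) (E1 := (E1 : ℚ_[p])) (E2 := (E2 : ℚ_[p]))
    (X := (E1 : ℚ_[p]) + E1 * (E1 - E2) * p ^ 2) (Y := E1 * (E1 - E2) * p * (s1 * s2))
    (w1 := p * r1) (w2 := r2 * s1) (fun h => hE (Subtype.ext h)) ha hb ?_ ?_ ?_ ?_
  · exact mul_ne_zero (mul_ne_zero (mul_ne_zero hE1ne hEne) hpne) (mul_ne_zero hs1 hs2)
  · have e : (E1 * (E1 - E2) * p * (s1 * s2) : ℚ_[p]) ^ 2 =
        (E1 * (E1 - E2) * p : ℚ_[p]) ^ 2 * (s1 ^ 2 * s2 ^ 2) := by ring
    rw [e, hs1', hs2']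
    ring
  · linear_combination (p : ℚ_[p]) ^ 2 * hr1
  · rw [mul_pow, hs1']
    linear_combination (1 + E1 * (p : ℚ_[p]) ^ 2) * hr2

/-- **the split case, good reduction** -/
theorem split_gen (h2 : p ≠ 2) {E1 E2 u v : ℤ_[p]}
    (ha : (a : ℚ_[p]) = -((E1 : ℚ_[p]) + E2)) (hb : (b : ℚ_[p]) = (E1 : ℚ_[p]) * E2)
    (hA : PadicInt.toZMod E1 ≠ 0) (hB : PadicInt.toZMod E2 ≠ 0)
    (hAB : PadicInt.toZMod (E1 - E2) ≠ 0) (hz1 : PadicInt.toZMod (u + v * E1) ≠ 0)
    (hz2 : PadicInt.toZMod (u + v * E2) ≠ 0) : LocZ ℚ_[p] a b (u : ℚ_[p]) (v : ℚ_[p]) := by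
  have hF : ringChar (ZMod p) ≠ 2 := by rw [ZMod.ringChar_zmod_n]; exact h2
  obtain ⟨z1, h1⟩ : ∃ E : ℤ_[p], E = u + v * E1 := ⟨_, rfl⟩
  obtain ⟨z2, h2'⟩ : ∃ E : ℤ_[p], E = u + v * E2 := ⟨_, rfl⟩
  rw [← h1] at hz1
  rw [← h2'] at hz2
  have z1Q : (z1 : ℚ_[p]) = u + v * E1 := by rw [h1]; push_cast; rfl
  have z2Q : (z2 : ℚ_[p]) = u + v * E2 := by rw [h2']; push_cast; rfl
  have hAB' : PadicInt.toZMod E1 ≠ PadicInt.toZMod E2 := by
    intro h; apply hAB; rw [map_sub, h, sub_self]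
  have hE12' : E1 ≠ E2 := by
    rintro rfl
    exact hAB' rfl
  have hE12 : (E1 : ℚ_[p]) ≠ E2 := fun h => hE12' (Subtype.ext h)
  have hE10 : E1 ≠ 0 := by rintro rfl; exact hA (map_zero _)
  have hE20 : E2 ≠ 0 := by rintro rfl; exact hB (map_zero _)
  -- squares of the characters
  have sq1 : quadraticChar (ZMod p) (PadicInt.toZMod z1) *
      quadraticChar (ZMod p) (PadicInt.toZMod z1) = 1 := by
    rw [← map_mul, ← pow_two, quadraticChar_sq_one' hz1]
  have sq2 : quadraticChar (ZMod p) (PadicInt.toZMod z2) *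
      quadraticChar (ZMod p) (PadicInt.toZMod z2) = 1 := by
    rw [← map_mul, ← pow_two, quadraticChar_sq_one' hz2]
  have sqA : quadraticChar (ZMod p) (PadicInt.toZMod E1) *
      quadraticChar (ZMod p) (PadicInt.toZMod E1) = 1 := by
    rw [← map_mul, ← pow_two, quadraticChar_sq_one' hA]
  have sqB : quadraticChar (ZMod p) (PadicInt.toZMod E2) *
      quadraticChar (ZMod p) (PadicInt.toZMod E2) = 1 := by
    rw [← map_mul, ← pow_two, quadraticChar_sq_one' hB]
  have d1 : quadraticChar (ZMod p) (PadicInt.toZMod z1) *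
      quadraticChar (ZMod p) (PadicInt.toZMod z2) = 1 ∨
      quadraticChar (ZMod p) (PadicInt.toZMod z1) *
      quadraticChar (ZMod p) (PadicInt.toZMod z2) = -1 := by
    rw [← map_mul]; exact quadraticChar_dichotomy (mul_ne_zero hz1 hz2)
  rcases Pool.Agent.Y105.RZ.classes hF hA hB hAB' d1 (quadraticChar_dichotomy hz1) with
    ⟨w, q0, q1, q2⟩ | ⟨q1, q2⟩ | ⟨q1, q2⟩ | ⟨q1, q2⟩ | ⟨q1, q2⟩
  · -- a point with `Y ≠ 0` over the residue field
    refine Or.inr (Or.inr ?_)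
    obtain ⟨X, hX⟩ := exists_lift w
    have q2' : quadraticChar (ZMod p) (w - PadicInt.toZMod E2) =
        quadraticChar (ZMod p) (PadicInt.toZMod z2) := by
      rw [q2]; linear_combination (quadraticChar (ZMod p) (PadicInt.toZMod z2)) * sq1
    have hX1 : PadicInt.toZMod (X - E1) = w - PadicInt.toZMod E1 := by rw [map_sub, hX]
    have hX2 : PadicInt.toZMod (X - E2) = w - PadicInt.toZMod E2 := by rw [map_sub, hX]
    have n0 : w ≠ 0 := by
      rintro rfl
      rw [quadraticChar_zero] at q0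
      rcases d1 with h | h <;> rw [h] at q0 <;> norm_num at q0
    have n1 : w - PadicInt.toZMod E1 ≠ 0 := by
      intro h
      rw [h, quadraticChar_zero] at q1
      rw [← q1] at sq1
      norm_num at sq1
    have n2 : w - PadicInt.toZMod E2 ≠ 0 := by
      intro h
      rw [h, quadraticChar_zero] at q2'
      rw [← q2'] at sq2
      norm_num at sq2
    obtain ⟨r1, hr1⟩ := sq_quot h2 (z := X - E1) (w := z1) (by rw [hX1]; exact n1) hz1
      (by rw [hX1, q1])
    obtain ⟨r2, hr2⟩ := sq_quot h2 (z := X - E2) (w := z2) (by rw [hX2]; exact n2) hz2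
      (by rw [hX2, q2'])
    have e3 : PadicInt.toZMod (X * ((X - E1) * (X - E2))) =
        w * ((w - PadicInt.toZMod E1) * (w - PadicInt.toZMod E2)) := by
      rw [map_mul, map_mul, hX1, hX2, hX]
    obtain ⟨r3, hr3, hr3'⟩ := unit_sq h2 (z := X * ((X - E1) * (X - E2)))
      (by rw [e3]; exact mul_ne_zero n0 (mul_ne_zero n1 n2))
      (by
        rw [e3, map_mul, map_mul, q0, q1, q2']
        linear_combination (quadraticChar (ZMod p) (PadicInt.toZMod z2) *
          quadraticChar (ZMod p) (PadicInt.toZMod z2)) * sq1 + sq2)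
    push_cast at hr1 hr2 hr3'
    refine ptz_gen (a := a) (b := b) (E1 := (E1 : ℚ_[p])) (E2 := (E2 : ℚ_[p]))
      (X := (X : ℚ_[p])) (Y := r3) (w1 := r1) (w2 := r2) hE12 ha hb hr3 ?_ ?_ ?_
    · rw [hr3']
    · rw [← z1Q, hr1]
    · rw [← z2Q, hr2]
  · -- squares
    have q1' : quadraticChar (ZMod p) (PadicInt.toZMod z2) = 1 := by
      rw [q2, one_mul] at q1; exact q1
    obtain ⟨r1, -, hr1⟩ := unit_sq h2 hz1 q2
    obtain ⟨r2, -, hr2⟩ := unit_sq h2 hz2 q1'
    refine loc_sq hE12 ha hb ⟨r1, ?_⟩ ⟨r2, ?_⟩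
    · rw [← pow_two, hr1, z1Q]
    · rw [← pow_two, hr2, z2Q]
  · -- the class of `(0, 0)`
    have hnA : PadicInt.toZMod (-E1 * z1) ≠ 0 := by
      rw [map_mul, map_neg]; exact mul_ne_zero (neg_ne_zero.2 hA) hz1
    have hnB : PadicInt.toZMod (-E2 * z2) ≠ 0 := by
      rw [map_mul, map_neg]; exact mul_ne_zero (neg_ne_zero.2 hB) hz2
    have sqm : quadraticChar (ZMod p) (-1) * quadraticChar (ZMod p) (-1) = 1 := by
      rw [← map_mul]; norm_num
    have qA : quadraticChar (ZMod p) (-PadicInt.toZMod E1) = quadraticChar (ZMod p) (-1) *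
        quadraticChar (ZMod p) (PadicInt.toZMod E1) := by
      rw [← map_mul]; congr 1; ring
    have qB : quadraticChar (ZMod p) (-PadicInt.toZMod E2) = quadraticChar (ZMod p) (-1) *
        quadraticChar (ZMod p) (PadicInt.toZMod E2) := by
      rw [← map_mul]; congr 1; ring
    rw [map_mul] at q1
    rw [qA] at q2
    obtain ⟨r1, -, hr1⟩ := unit_sq h2 hnA (by
      rw [map_mul, map_mul, map_neg, qA, q2]
      linear_combination (quadraticChar (ZMod p) (PadicInt.toZMod E1) *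
        quadraticChar (ZMod p) (PadicInt.toZMod E1)) * sqm + sqA)
    obtain ⟨r2, -, hr2⟩ := unit_sq h2 hnB (by
      have hz2c : quadraticChar (ZMod p) (PadicInt.toZMod z2) =
          quadraticChar (ZMod p) (-1) * quadraticChar (ZMod p) (PadicInt.toZMod E2) := by
        calc quadraticChar (ZMod p) (PadicInt.toZMod z2) =
            quadraticChar (ZMod p) (PadicInt.toZMod z1) *
              (quadraticChar (ZMod p) (PadicInt.toZMod z1) *
                quadraticChar (ZMod p) (PadicInt.toZMod z2)) := by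
              linear_combination (-quadraticChar (ZMod p) (PadicInt.toZMod z2)) * sq1
          _ = _ := by
              rw [q1, q2]
              linear_combination (quadraticChar (ZMod p) (-1) *
                quadraticChar (ZMod p) (PadicInt.toZMod E2)) * sqA
      rw [map_mul, map_mul, map_neg, qB, hz2c]
      linear_combination (quadraticChar (ZMod p) (PadicInt.toZMod E2) *
        quadraticChar (ZMod p) (PadicInt.toZMod E2)) * sqm + sqB)
    push_cast at hr1 hr2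
    refine loc_zero hE12 ha hb ⟨r1, ?_⟩ ⟨r2, ?_⟩
    · rw [← pow_two, hr1, z1Q]
    · rw [← pow_two, hr2, z2Q]
  · -- the class of `(E1, 0)`
    have e : PadicInt.toZMod E1 * (PadicInt.toZMod E1 - PadicInt.toZMod E2) =
        PadicInt.toZMod (E1 * (E1 - E2)) := by
      rw [map_mul, map_sub]
    rw [e] at q2
    have e1 : quadraticChar (ZMod p) (PadicInt.toZMod (E1 * (E1 - E2))) =
        quadraticChar (ZMod p) (PadicInt.toZMod E1) *
          quadraticChar (ZMod p) (PadicInt.toZMod (E1 - E2)) := by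
      rw [map_mul, map_mul]
    obtain ⟨r1, hr1⟩ := sq_quot h2 (z := E1 * (E1 - E2)) (w := z1)
      (by rw [map_mul]; exact mul_ne_zero hA hAB) hz1 q2.symm
    obtain ⟨r2, hr2⟩ := sq_quot h2 (z := E1 - E2) (w := z2) hAB hz2 (by
      rw [e1] at q2
      calc quadraticChar (ZMod p) (PadicInt.toZMod (E1 - E2)) =
          quadraticChar (ZMod p) (PadicInt.toZMod E1) *
            (quadraticChar (ZMod p) (PadicInt.toZMod E1) *
              quadraticChar (ZMod p) (PadicInt.toZMod (E1 - E2))) := by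
            linear_combination (-quadraticChar (ZMod p) (PadicInt.toZMod (E1 - E2))) * sqA
        _ = (quadraticChar (ZMod p) (PadicInt.toZMod z1) *
              quadraticChar (ZMod p) (PadicInt.toZMod z2)) *
                quadraticChar (ZMod p) (PadicInt.toZMod z1) := by
            rw [q1, q2]
        _ = _ := by
            linear_combination (quadraticChar (ZMod p) (PadicInt.toZMod z2)) * sq1)
    push_cast at hr1 hr2
    exact Or.inr (Or.inr (T1_gen h2 hE10 hE12' ha hb ⟨r1, by rw [hr1, z1Q]⟩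
      ⟨r2, by rw [hr2, z2Q]⟩))
  · -- the class of `(E2, 0)`
    have hBA : PadicInt.toZMod (E2 - E1) ≠ 0 := by
      rw [map_sub]; exact sub_ne_zero.2 (Ne.symm hAB')
    have e : PadicInt.toZMod E2 - PadicInt.toZMod E1 = PadicInt.toZMod (E2 - E1) := by
      rw [map_sub]
    rw [e] at q2
    obtain ⟨r1, hr1⟩ := sq_quot h2 (z := E2 - E1) (w := z1) hBA hz1 q2.symm
    obtain ⟨r2, hr2⟩ := sq_quot h2 (z := E2 * (E2 - E1)) (w := z2)
      (by rw [map_mul]; exact mul_ne_zero hB hBA) hz2 (by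
        rw [map_mul, map_mul, ← q1, ← q2]
        linear_combination (quadraticChar (ZMod p) (PadicInt.toZMod z2)) * sq1)
    push_cast at hr1 hr2
    exact Or.inr (Or.inr (T1_gen h2 hE20 (Ne.symm hE12') (by rw [ha]; ring) (by rw [hb]; ring)
      ⟨r2, by rw [hr2, z2Q]⟩ ⟨r1, by rw [hr1, z1Q]⟩))

end padic

end Pool.Agent.L0h61.T3
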