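import Mathlib

/-!
# Determinants over `𝔽₄` and over `𝔽₂` of a matrix with a symmetry
-/

set_option autoImplicit false
set_option linter.unusedSectionVars false

namespace Pool.Agent.L0h61.T3

open Matrix

variable {κ : Type} [Fintype κ] [DecidableEq κ]

/-- `I + u vᵀ` has determinant `1` if `v · u = 0` -/
lemma det_one_add_vec {A : Type} [CommRing A] (u v : κ → A) (h : v ⬝ᵥ u = 0) :
    (1 + vecMulVec u v).det = 1 := by
  have h1 : vecMulVec u v = replicateCol Unit u * replicateRow Unit v := by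
    ext i j
    simp [Matrix.vecMulVec_apply, Matrix.mul_apply]
  rw [h1, Matrix.det_one_add_replicateCol_mul_replicateRow, h, add_zero]

section

/-- the data of the two systems -/
structure Sys (m : κ → κ → ZMod 2) (n t : κ → ZMod 2) (c : κ → κ) : Prop where
  rcp : ∀ i j, i ≠ j → m i j + m j i = n i * n j + t i * n j + n i * t j
  sumn : ∑ i, n i = 0
  cinv : ∀ i, c (c i) = i
  cn : ∀ i, n (c i) = n i
  ct : ∀ i, t (c i) = t i + n i
  cm : ∀ i j, i ≠ j → m (c i) (c j) = m i j

variable (m : κ → κ → ZMod 2) (n t : κ → ZMod 2) (c : κ → κ)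

/-- the symmetrised symbols -/
def m0 (i j : κ) : ZMod 2 := m i j + t i * n j

/-- the Laplacian with row sums `t` -/
def Lp : Matrix κ κ (ZMod 2) := Matrix.of fun i j =>
  if i = j then t i + ∑ k ∈ Finset.univ.erase i, m0 m n t i k else m0 m n t i j

/-- the permutation matrix -/
def Cm : Matrix κ κ (ZMod 2) := Matrix.of fun i j => if c i = j then 1 else 0

/-- the matrix of the first system -/
def Hm (d : ZMod 2) : Matrix κ κ (ZMod 2) := Matrix.of fun j i =>
  (if i = j then ∑ k ∈ Finset.univ.erase j, m k j + d * n j + (t j + n j) else m i j) +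
    if c j = i then n j else 0

/-- the matrix of the second system -/
def Gm {A : Type} [CommRing A] (φ : ZMod 2 →+* A) (o : A) : Matrix κ κ A := Matrix.of fun i j =>
  if i = j then φ (t i) + o ^ 2 * φ (n i) + ∑ k ∈ Finset.univ.erase i, φ (m i k) else φ (m i j)

/-- the common matrix -/
def Xm : Matrix κ κ (ZMod 2) := Lp m n t + Cm c * Lp m n t + Lp m n t * Cm c

variable {m n t c}

lemma z2 (a : ZMod 2) : a + a = 0 := CharTwo.add_self_eq_zero a
lemma z2m (a : ZMod 2) : a * a = a := by revert a; decide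

lemma Lp_ne {i j : κ} (h : i ≠ j) : Lp m n t i j = m0 m n t i j := by
  unfold Lp
  rw [Matrix.of_apply, if_neg h]

lemma Lp_eq (i : κ) : Lp m n t i i = t i + ∑ k ∈ Finset.univ.erase i, m0 m n t i k := by
  unfold Lp
  rw [Matrix.of_apply, if_pos rfl]

lemma Cm_mul_apply (M : Matrix κ κ (ZMod 2)) (i j : κ) : (Cm c * M) i j = M (c i) j := by
  rw [Matrix.mul_apply]
  unfold Cm
  simp

lemma mul_Cm_apply (hc : ∀ i, c (c i) = i) (M : Matrix κ κ (ZMod 2)) (i j : κ) :
    (M * Cm c) i j = M i (c j) := by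
  rw [Matrix.mul_apply]
  unfold Cm
  rw [Finset.sum_eq_single (c j)]
  · rw [Matrix.of_apply, if_pos (hc j), mul_one]
  · intro k _ hk
    rw [Matrix.of_apply, if_neg, mul_zero]
    intro h
    exact hk (by rw [← h, hc])
  · intro h
    exact absurd (Finset.mem_univ _) h

lemma Cm_sq (hc : ∀ i, c (c i) = i) : Cm c * Cm c = (1 : Matrix κ κ (ZMod 2)) := by
  ext i j
  rw [Cm_mul_apply]
  unfold Cm
  rw [Matrix.of_apply, hc, Matrix.one_apply]

lemma sum_erase_n (h : Sys m n t c) (i : κ) : ∑ k ∈ Finset.univ.erase i, n k = n i := by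
  have h1 := Finset.add_sum_erase Finset.univ n (Finset.mem_univ i)
  rw [h.sumn] at h1
  have h2 : ∑ k ∈ Finset.univ.erase i, n k = (n i + ∑ k ∈ Finset.univ.erase i, n k) + n i := by
    have := z2 (n i)
    linear_combination -this
  rw [h2, h1, zero_add]

lemma m0_symm (h : Sys m n t c) {i j : κ} (hij : i ≠ j) :
    m0 m n t i j + m0 m n t j i = n i * n j := by
  unfold m0
  have h1 := h.rcp i j hij
  have h2 := z2 (t i * n j)
  have h3 := z2 (n i * t j)
  linear_combination h1 + h2 + h3

/-- `L + Lᵀ = n nᵀ + N` -/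
lemma Lp_symm (h : Sys m n t c) :
    Lp m n t + (Lp m n t)ᵀ = vecMulVec n n + Matrix.diagonal n := by
  ext i j
  rw [Matrix.add_apply, Matrix.transpose_apply, Matrix.add_apply, Matrix.vecMulVec_apply]
  by_cases hij : i = j
  · subst hij
    rw [z2, Matrix.diagonal_apply_eq, z2m, z2]
  · rw [Lp_ne hij, Lp_ne (Ne.symm hij), m0_symm h hij, Matrix.diagonal_apply_ne _ hij, add_zero]

lemma c_inj (h : Sys m n t c) {i j : κ} (hij : i ≠ j) : c i ≠ c j := fun e =>
  hij (by rw [← h.cinv i, e, h.cinv])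

/-- `C L C = Lᵀ` -/
lemma CLC (h : Sys m n t c) : Cm c * Lp m n t * Cm c = (Lp m n t)ᵀ := by
  ext i j
  rw [mul_Cm_apply h.cinv, Cm_mul_apply, Matrix.transpose_apply]
  have key : ∀ i j : κ, i ≠ j → m0 m n t (c i) (c j) = m0 m n t j i := by
    intro i j hij
    have h1 := m0_symm h hij
    have h2 : m0 m n t (c i) (c j) = m0 m n t i j + n i * n j := by
      unfold m0
      rw [h.cm i j hij, h.ct, h.cn]
      ring
    rw [h2]
    have h3 := z2 (m0 m n t i j)
    linear_combination h3 - h1
  by_cases hij : i = j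
  · subst hij
    rw [Lp_eq, Lp_eq]
    have hb : ∑ k ∈ Finset.univ.erase (c i), m0 m n t (c i) k =
        ∑ k ∈ Finset.univ.erase i, m0 m n t (c i) (c k) := by
      refine (Finset.sum_bij (fun k _ => c k) ?_ ?_ ?_ ?_).symm
      · intro k hk
        rw [Finset.mem_erase] at hk ⊢
        exact ⟨c_inj h hk.1, Finset.mem_univ _⟩
      · intro a _ b _ hab
        rw [← h.cinv a, hab, h.cinv]
      · intro k hk
        rw [Finset.mem_erase] at hk
        refine ⟨c k, ?_, h.cinv k⟩
        rw [Finset.mem_erase]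
        exact ⟨fun e => hk.1 (by rw [← e, h.cinv]), Finset.mem_univ _⟩
      · intro k _
        rfl
    rw [hb, h.ct]
    have h1 : ∑ k ∈ Finset.univ.erase i, m0 m n t (c i) (c k) =
        ∑ k ∈ Finset.univ.erase i, (m0 m n t i k + n i * n k) := by
      refine Finset.sum_congr rfl fun k hk => ?_
      have hk' := (Finset.mem_erase.1 hk).1
      unfold m0
      rw [h.cm i k (Ne.symm hk'), h.ct, h.cn]
      ring
    rw [h1, Finset.sum_add_distrib, ← Finset.mul_sum, sum_erase_n h, z2m]
    linear_combination z2 (n i)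
  · rw [Lp_ne (c_inj h hij), Lp_ne (Ne.symm hij)]
    exact key i j hij

lemma Cn (h : Sys m n t c) : Cm c *ᵥ n = n := by
  ext i
  have : (Cm c *ᵥ n) i = n (c i) := by
    unfold Cm Matrix.mulVec dotProduct
    simp
  rw [this, h.cn]

/-! ### the first system -/

lemma sum_erase_t (i : κ) : ∑ k ∈ Finset.univ.erase i, t k = ∑ k, t k + t i := by
  have h1 := Finset.add_sum_erase Finset.univ t (Finset.mem_univ i)
  rw [← h1]
  linear_combination -z2 (t i)

/-- `H = Lᵀ + N C + n tᵀ` -/
lemma Hm_eq (h : Sys m n t c) :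
    Hm m n t c (∑ i, t i) = (Lp m n t)ᵀ + Matrix.diagonal n * Cm c + vecMulVec n t := by
  ext j i
  rw [Matrix.add_apply, Matrix.add_apply, Matrix.transpose_apply, Matrix.vecMulVec_apply]
  have e1 : (Matrix.diagonal n * Cm c) j i = if c j = i then n j else 0 := by
    rw [Matrix.diagonal_mul]
    unfold Cm
    rw [Matrix.of_apply]
    split_ifs <;> simp
  rw [e1]
  unfold Hm
  rw [Matrix.of_apply]
  by_cases hij : i = j
  · subst hij
    rw [if_pos rfl, Lp_eq]
    have h1 : ∑ k ∈ Finset.univ.erase i, m k i =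
        ∑ k ∈ Finset.univ.erase i, (m0 m n t i k + n i * n k + t k * n i) := by
      refine Finset.sum_congr rfl fun k hk => ?_
      have hk' := (Finset.mem_erase.1 hk).1
      have h2 := m0_symm h (Ne.symm hk')
      have h3 : m k i = m0 m n t k i - t k * n i := by unfold m0; ring
      rw [h3]
      linear_combination h2 - z2 (m0 m n t i k) - z2 (t k * n i)
    rw [h1, Finset.sum_add_distrib, Finset.sum_add_distrib, ← Finset.mul_sum, ← Finset.sum_mul,
      sum_erase_n h, sum_erase_t (t := t) i, z2m]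
    linear_combination z2 (n i) + z2 ((∑ k, t k) * n i)
  · rw [if_neg hij, Lp_ne hij]
    unfold m0
    linear_combination -z2 (t i * n j)

lemma one_vecMul_Lp : (fun _ => (1 : ZMod 2)) ᵥ* (Lp m n t)ᵀ = t := by
  ext i
  rw [Matrix.vecMul_transpose]
  unfold Matrix.mulVec dotProduct
  simp only [mul_one]
  rw [← Finset.add_sum_erase Finset.univ _ (Finset.mem_univ i), Lp_eq]
  have h1 : ∑ k ∈ Finset.univ.erase i, Lp m n t i k =
      ∑ k ∈ Finset.univ.erase i, m0 m n t i k := by
    refine Finset.sum_congr rfl fun k hk => ?_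
    exact Lp_ne (Ne.symm (Finset.mem_erase.1 hk).1)
  rw [h1]
  linear_combination z2 (∑ k ∈ Finset.univ.erase i, m0 m n t i k)

lemma one_vecMul_NC (h : Sys m n t c) :
    (fun _ => (1 : ZMod 2)) ᵥ* (Matrix.diagonal n * Cm c) = n := by
  ext i
  unfold Matrix.vecMul dotProduct
  simp only [one_mul]
  rw [Finset.sum_eq_single (c i)]
  · rw [Matrix.diagonal_mul]
    unfold Cm
    rw [Matrix.of_apply, if_pos (h.cinv i), mul_one, h.cn]
  · intro k _ hk
    rw [Matrix.diagonal_mul]
    unfold Cm
    rw [Matrix.of_apply, if_neg, mul_zero]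
    intro e
    exact hk (by rw [← e, h.cinv])
  · intro h'
    exact absurd (Finset.mem_univ _) h'

/-- `N C + n nᵀ = Lᵀ C + C Lᵀ` -/
lemma NC_eq (h : Sys m n t c) :
    Matrix.diagonal n * Cm c + vecMulVec n n = (Lp m n t)ᵀ * Cm c + Cm c * (Lp m n t)ᵀ := by
  have h1 : Cm c * (Lp m n t)ᵀ = Lp m n t * Cm c := by
    rw [← CLC h, ← Matrix.mul_assoc, ← Matrix.mul_assoc, Cm_sq h.cinv, Matrix.one_mul]
  rw [h1, ← Matrix.add_mul, add_comm (Lp m n t)ᵀ, Lp_symm h, Matrix.add_mul]
  have h2 : vecMulVec n n * Cm c = vecMulVec n n := by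
    ext i j
    rw [mul_Cm_apply h.cinv, Matrix.vecMulVec_apply, Matrix.vecMulVec_apply, h.cn]
  rw [h2, add_comm]

lemma Cm_T (h : Sys m n t c) : (Cm c : Matrix κ κ (ZMod 2))ᵀ = Cm c := by
  ext i j
  rw [Matrix.transpose_apply]
  unfold Cm
  rw [Matrix.of_apply, Matrix.of_apply]
  by_cases e : c j = i
  · rw [if_pos e, if_pos (by rw [← e, h.cinv])]
  · rw [if_neg e, if_neg]
    intro e'
    exact e (by rw [← e', h.cinv])

lemma Xm_T (h : Sys m n t c) : (Xm m n t c)ᵀ =
    (Lp m n t)ᵀ + Matrix.diagonal n * Cm c + vecMulVec n n := by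
  unfold Xm
  rw [Matrix.transpose_add, Matrix.transpose_add, Matrix.transpose_mul, Matrix.transpose_mul,
    Cm_T h, add_assoc, ← NC_eq h, add_assoc]

/-- **the determinant of the first system** -/
theorem det_Hm (h : Sys m n t c) : (Hm m n t c (∑ i, t i)).det = (Xm m n t c).det := by
  have e : Hm m n t c (∑ i, t i) = (1 + vecMulVec n (fun _ => (1 : ZMod 2))) * (Xm m n t c)ᵀ := by
    rw [Hm_eq h, Xm_T h, Matrix.add_mul, Matrix.one_mul, Matrix.vecMulVec_mul,
      Matrix.vecMul_add, Matrix.vecMul_add, one_vecMul_Lp, one_vecMul_NC h]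
    have h1 : (fun _ => (1 : ZMod 2)) ᵥ* vecMulVec n n = 0 := by
      ext i
      unfold Matrix.vecMul dotProduct
      simp only [one_mul, Matrix.vecMulVec_apply]
      rw [← Finset.sum_mul, h.sumn, zero_mul]
      rfl
    rw [h1, add_zero]
    have h2 : vecMulVec n (t + n) = vecMulVec n t + vecMulVec n n := by
      ext i j
      simp only [Matrix.vecMulVec_apply, Matrix.add_apply, Pi.add_apply, mul_add]
    rw [h2]
    ext j i
    simp only [Matrix.add_apply]
    linear_combination -z2 (vecMulVec n n j i)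
  rw [e, Matrix.det_mul, det_one_add_vec, one_mul, Matrix.det_transpose]
  unfold dotProduct
  simp only [one_mul]
  exact h.sumn

/-! ### the second system -/

section
variable {A : Type} [CommRing A] (φ : ZMod 2 →+* A) {o : A}

include φ in
lemma two_A : (2 : A) = 0 := by
  have h1 : φ 2 = 2 := map_ofNat φ 2
  rw [← h1, show (2 : ZMod 2) = 0 by decide, map_zero]

/-- `G = L + o² N + t nᵀ` -/
lemma Gm_eq (h : Sys m n t c) : Gm m n t φ o = (Lp m n t).map φ +
    o ^ 2 • (Matrix.diagonal n).map φ + (vecMulVec t n).map φ := by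
  ext i j
  rw [Matrix.add_apply, Matrix.add_apply, Matrix.smul_apply, Matrix.map_apply, Matrix.map_apply,
    Matrix.map_apply, Matrix.vecMulVec_apply, smul_eq_mul]
  unfold Gm
  rw [Matrix.of_apply]
  by_cases hij : i = j
  · subst hij
    rw [if_pos rfl, Lp_eq, Matrix.diagonal_apply_eq]
    have h1 : ∑ k ∈ Finset.univ.erase i, φ (m i k) =
        φ (∑ k ∈ Finset.univ.erase i, (m0 m n t i k + t i * n k)) := by
      rw [map_sum]
      refine Finset.sum_congr rfl fun k hk => ?_
      congr 1
      unfold m0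
      linear_combination -z2 (t i * n k)
    rw [h1, Finset.sum_add_distrib, ← Finset.mul_sum, sum_erase_n h, map_add, map_add]
    ring
  · rw [if_neg hij, Lp_ne hij, Matrix.diagonal_apply_ne _ hij, map_zero, mul_zero, add_zero,
      ← map_add]
    congr 1
    unfold m0
    linear_combination -z2 (t i * n j)

/-- **the determinant of the second system** -/
theorem det_Gm (h : Sys m n t c) (ho : o ^ 2 + o + 1 = 0) :
    (Gm m n t φ o).det = φ (Xm m n t c).det := by
  have h2A : (2 : A) = 0 := two_A φ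
  set L : Matrix κ κ A := (Lp m n t).map φ with hL
  set C : Matrix κ κ A := (Cm c).map φ with hC
  have hCC : C * C = 1 := by
    rw [hC, ← Matrix.map_mul, Cm_sq h.cinv, Matrix.map_one φ (map_zero φ) (map_one φ)]
  have hCLC : C * L * C = Lᵀ := by
    rw [hC, hL, ← Matrix.map_mul, ← Matrix.map_mul, CLC h, Matrix.transpose_map]
  have hX : (Xm m n t c).map φ = L + C * L + L * C := by
    unfold Xm
    rw [Matrix.map_add φ (map_add φ), Matrix.map_add φ (map_add φ), Matrix.map_mul, Matrix.map_mul]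
  have hLT : L + Lᵀ = (vecMulVec n n).map φ + (Matrix.diagonal n).map φ := by
    rw [hL, ← Matrix.transpose_map, ← Matrix.map_add φ (map_add φ), Lp_symm h,
      Matrix.map_add φ (map_add φ)]
  have h2M : ∀ M : Matrix κ κ A, M + M = 0 := by
    intro M
    ext i j
    rw [Matrix.add_apply, ← two_mul, h2A, zero_mul]
    rfl
  -- the first factorisation
  have e1 : Gm m n t φ o = (L + o ^ 2 • (L + Lᵀ)) *
      (1 + vecMulVec (fun _ => (1 : A)) (fun i => φ (n i))) := by
    have hL1 : L *ᵥ (fun _ => (1 : A)) = fun i => φ (t i) := by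
      have h1 := congrArg (fun v : κ → ZMod 2 => fun i => φ (v i)) (one_vecMul_Lp (m := m) (n := n) (t := t))
      simp only [Matrix.vecMul_transpose] at h1
      rw [← h1]
      ext i
      rw [hL]
      unfold Matrix.mulVec dotProduct
      simp [map_sum]
    have hLT1 : (L + Lᵀ) *ᵥ (fun _ => (1 : A)) = fun i => φ (n i) := by
      rw [hLT]
      ext i
      unfold Matrix.mulVec dotProduct
      simp only [Matrix.add_apply, Matrix.map_apply, Matrix.vecMulVec_apply, mul_one,
        Finset.sum_add_distrib, ← map_sum, ← Finset.mul_sum]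
      rw [h.sumn, mul_zero, map_zero, zero_add]
      congr 1
      rw [Finset.sum_eq_single i]
      · rw [Matrix.diagonal_apply_eq]
      · intro b _ hb
        exact Matrix.diagonal_apply_ne _ (Ne.symm hb)
      · intro h'
        exact absurd (Finset.mem_univ _) h'
    rw [Matrix.mul_add, Matrix.mul_one, Matrix.mul_vecMulVec, Matrix.add_mulVec,
      Matrix.smul_mulVec, hL1, hLT1, Gm_eq φ h, ← hL, hLT]
    ext i j
    simp only [Matrix.add_apply, Matrix.smul_apply, Matrix.map_apply, Matrix.vecMulVec_apply,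
      smul_eq_mul, Pi.add_apply, Pi.smul_apply, map_mul]
    linear_combination (-(o ^ 2 * φ (n i) * φ (n j))) * h2A
  have e2 : L + o ^ 2 • (L + Lᵀ) = (o ^ 2 • 1 + o • C) * (Xm m n t c).map φ *
      (o ^ 2 • 1 + o • C) := by
    rw [hX]
    have hLC : Lᵀ = C * L * C := hCLC.symm
    have a1 : C * (C * L) = L := by rw [← Matrix.mul_assoc, hCC, Matrix.one_mul]
    have a2 : L * C * C = L := by rw [Matrix.mul_assoc, hCC, Matrix.mul_one]
    have a3 : C * L * C * C = C * L := by rw [Matrix.mul_assoc (C * L), hCC, Matrix.mul_one]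
    have o3 : o * o ^ 2 = 1 := by linear_combination (o - 1) * ho
    have o4 : o ^ 2 * o ^ 2 = o := by linear_combination (o ^ 2 - o) * ho
    have o2 : o ^ 2 = o + 1 := by linear_combination ho - (o + 1) * h2A
    rw [hLC]
    simp only [Matrix.add_mul, Matrix.mul_add, Matrix.smul_mul, Matrix.mul_smul, Matrix.one_mul,
      Matrix.mul_one, smul_add, smul_smul, ← Matrix.mul_assoc, a2, a3, hCC]
    ext i j
    simp only [Matrix.add_apply, Matrix.smul_apply, smul_eq_mul]
    linear_combination (L i j * (1 - o * (o - 1))) * ho - (L i j * (o + o ^ 3)) * h2A -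
      (o ^ 3 * (C * L * C) i j) * h2A - (o ^ 2 * ((C * L) i j + (L * C) i j)) * ho
  have hu : (o ^ 2 • (1 : Matrix κ κ A) + o • C) * (o ^ 2 • 1 + o • C) = 1 := by
    have o4 : o ^ 2 * o ^ 2 = o := by linear_combination (o ^ 2 - o) * ho
    simp only [Matrix.add_mul, Matrix.mul_add, Matrix.smul_mul, Matrix.mul_smul, Matrix.one_mul,
      Matrix.mul_one, smul_add, smul_smul, hCC]
    ext i j
    simp only [Matrix.add_apply, Matrix.smul_apply, smul_eq_mul]
    linear_combination ((o ^ 2 - o) * (1 : Matrix κ κ A) i j) * ho + (1 : Matrix κ κ A) i j * ho +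
      (o ^ 3 * C i j - (1 : Matrix κ κ A) i j) * h2A
  have hdu : (o ^ 2 • (1 : Matrix κ κ A) + o • C).det * (o ^ 2 • (1 : Matrix κ κ A) + o • C).det
      = 1 := by
    rw [← Matrix.det_mul, hu, Matrix.det_one]
  rw [e1, Matrix.det_mul, det_one_add_vec, mul_one, e2, Matrix.det_mul, Matrix.det_mul]
  · have : φ (Xm m n t c).det = ((Xm m n t c).map φ).det := by
      rw [RingHom.map_det]
      rfl
    rw [this]
    linear_combination ((Xm m n t c).map φ).det * hdu
  · unfold dotProduct
    simp only [mul_one]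
    rw [← map_sum, h.sumn, map_zero]

end

end

end Pool.Agent.L0h61.T3
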